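import Pool.Agent.H3.UP.EXU
import Pool.Agent.H3.UP.FTR
import Pool.Agent.H64.NC.SFZ
import Pool.Agent.H64.NC.PRT
import Pool.Agent.H44.CP.PTR

/-!
# Critical points and invariant subsets of the post-critical set

`EXH f`: closed subsets of the post-critical set which are mapped into themselves, contain no critical point and whose
points are components of the post-critical set contain a point with a positive upper exponent (THEOREM H, think 1789).
`free`: `NFC` if `f` is not a limit of maps with more attracted critical points. `enter`: (totally disconnected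
post-critical set) every point of the post-critical set enters each neighbourhood of the critical points of the Julia set
in bounded time. `minl`: with one critical point in the Julia set the post-critical set is minimal. See think 1808, 1809.
-/

set_option autoImplicit false

open Filter Topology Set Polynomial

namespace Pool.Agent.H44.TH

open Pool.Agent.H56.HR (FS EqAt)
open Pool.Agent.H32.BT Pool.Agent.H79.Eul Pool.Agent.H79.Par Pool.Agent.H79.ES Pool.Agent.H44.RC
open Pool.Agent.H47.NM Pool.Agent.H57.CF Pool.Agent.H44.ND Pool.Agent.H35.EX Pool.Agent.H47.RJ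
open Pool.Agent.H44.CP
open Pool.Agent.H56.UE (PUE)
open Pool.Agent.H64.JS (KJ kj_inv kj_sub it_mem)

/-- closed subsets of the post-critical set which are mapped into themselves, contain no critical point and whose points
are components of the post-critical set contain a point with a positive upper exponent -/
def EXH (f : OnePoint ℂ → OnePoint ℂ) : Prop :=
  ∀ L ⊆ KJ {c | IsCrit f c} (JS f) f, IsClosed L → L.Nonempty → (∀ x ∈ L, f x ∈ L) → (∀ c ∈ L, ¬ IsCrit f c) →
    (∀ x ∈ L, connectedComponentIn (KJ {c | IsCrit f c} (JS f) f) x = {x}) → ∃ x ∈ L, PUE f x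

/-- every nonempty closed subset of the post-critical set which is mapped into itself contains a critical point or meets a
component of the post-critical set which is not a point -/
def NFC (f : OnePoint ℂ → OnePoint ℂ) : Prop :=
  ∀ L ⊆ KJ {c | IsCrit f c} (JS f) f, IsClosed L → L.Nonempty → (∀ x ∈ L, f x ∈ L) →
    (∃ c ∈ L, IsCrit f c) ∨ ∃ x ∈ L, connectedComponentIn (KJ {c | IsCrit f c} (JS f) f) x ≠ {x}

/-- every nonempty closed subset of the post-critical set which is mapped into itself contains a critical point -/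
def NFR (f : OnePoint ℂ → OnePoint ℂ) : Prop :=
  ∀ L ⊆ KJ {c | IsCrit f c} (JS f) f, IsClosed L → L.Nonempty → (∀ x ∈ L, f x ∈ L) → ∃ c ∈ L, IsCrit f c

theorem nfr_of {f : OnePoint ℂ → OnePoint ℂ} (h : NFC f)
    (htd : IsTotallyDisconnected (KJ {c | IsCrit f c} (JS f) f)) : NFR f := by
  intro L hL hLc hLn hLf
  refine (h L hL hLc hLn hLf).resolve_right ?_
  rintro ⟨x, hx, hc⟩
  exact hc ((htd _ (connectedComponentIn_subset _ _) isPreconnected_connectedComponentIn).eq_singleton_of_mem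
    (mem_connectedComponentIn (hL hx)))

variable {d : ℕ}

/-- invariant subsets without critical points meet nontrivial components -/
theorem free {m : ℕ} (hd : 2 ≤ d) (hm : m ≤ d) {v : Em d m} (hcop : IsCoprime (pol v.1) (pol v.2))
    (hdeg : max (pol v.1).natDegree (pol v.2).natDegree = d) (hup : ¬ UpF d m v)
    (hTH : EXH (Rf (ex d m v))) : NFC (Rf (ex d m v)) := by
  intro L hL hLc hLn hLf
  by_contra hcon
  push Not at hcon
  obtain ⟨x, hx, hxp⟩ := hTH L hL hLc hLn hLf hcon.1 hcon.2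
  have hcop' := ex_cop hcop
  have hdeg' := ex_deg hdeg
  have hd1 : 1 ≤ max (pol (ex d m v).1).natDegree (pol (ex d m v).2).natDegree := by
    rw [hdeg']; omega
  have hf : Continuous (Rf (ex d m v)) := Pool.Agent.H44.Fatou.rat_continuous hcop'
  have hfin : {c | IsCrit (Rf (ex d m v)) c}.Finite := crit_finite hcop' hd1
  have hJc := js_closed (Rf (ex d m v))
  have hJi : ∀ x ∈ JS (Rf (ex d m v)), Rf (ex d m v) x ∈ JS (Rf (ex d m v)) :=
    fun x hx hF => hx ((fs_iff (by omega) hcop' hdeg' 1 x).1 hF)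
  obtain ⟨y, hy, hc⟩ := Pool.Agent.H3.UP.exu hcop' hd1 hf hfin hJc hJi (Pool.Agent.H3.UP.fat_fam hd hm hcop hdeg hup)
    (Pool.Agent.H64.NC.pr_end hd hm hcop hdeg hup) (hL hx) hxp
  refine hc (hcon.2 y ?_)
  rw [← hLc.closure_eq, mem_closure_iff_nhds]
  intro U hU
  obtain ⟨n, hn⟩ := (hy.frequently hU).exists
  exact ⟨_, hn, it_mem hLf hx n⟩

/-- every point of the post-critical set enters the neighbourhoods of the critical points in bounded time -/
theorem enter {f : OnePoint ℂ → OnePoint ℂ} (hf : Continuous f) (hJi : ∀ x ∈ JS f, f x ∈ JS f) (hF : NFR f)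
    {U : Set (OnePoint ℂ)} (hU : IsOpen U) (hcU : {c | IsCrit f c ∧ c ∈ JS f} ⊆ U) :
    ∃ n : ℕ, ∀ x ∈ KJ {c | IsCrit f c} (JS f) f, ∃ j ≤ n, f^[j] x ∈ U := by
  obtain ⟨K, hK⟩ : ∃ K, K = KJ {c | IsCrit f c} (JS f) f := ⟨_, rfl⟩
  have hKc : IsClosed K := hK ▸ isClosed_closure
  have hKf : ∀ x ∈ K, f x ∈ K := hK ▸ kj_inv hf
  have hKJ : K ⊆ JS f := hK ▸ kj_sub (js_closed f) hJi
  rw [← hK]
  by_contra hcon
  push Not at hcon
  have hcl : ∀ n : ℕ, IsClosed {x | x ∈ K ∧ ∀ j ≤ n, f^[j] x ∉ U} := by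
    intro n
    have e1 : {x | x ∈ K ∧ ∀ j ≤ n, f^[j] x ∉ U} = K ∩ ⋂ j : ℕ, ⋂ _ : j ≤ n, f^[j] ⁻¹' Uᶜ := by
      ext x
      simp only [mem_ofPred_eq, mem_inter_iff, mem_iInter, mem_preimage, mem_compl_iff]
    rw [e1]
    exact hKc.inter (isClosed_iInter fun j => isClosed_iInter fun _ => hU.isClosed_compl.preimage (hf.iterate j))
  have h1 : (⋂ n : ℕ, {x | x ∈ K ∧ ∀ j ≤ n, f^[j] x ∉ U}).Nonempty := by
    refine IsCompact.nonempty_iInter_of_sequence_nonempty_isCompact_isClosed _ (fun n x hx => ?_) (fun n => ?_) ?_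
      (fun n => ?_)
    · exact ⟨hx.1, fun j hj => hx.2 j (by omega)⟩
    · obtain ⟨x, hx, hx2⟩ := hcon n
      exact ⟨x, hx, hx2⟩
    · exact (hcl 0).isCompact
    · exact hcl n
  obtain ⟨x0, hx0⟩ := h1
  rw [mem_iInter] at hx0
  have h2 : IsClosed {x | x ∈ K ∧ ∀ j, f^[j] x ∉ U} := by
    have e1 : {x | x ∈ K ∧ ∀ j, f^[j] x ∉ U} = K ∩ ⋂ j : ℕ, f^[j] ⁻¹' Uᶜ := by
      ext x
      simp only [mem_ofPred_eq, mem_inter_iff, mem_iInter, mem_preimage, mem_compl_iff]
    rw [e1]
    exact hKc.inter (isClosed_iInter fun j => hU.isClosed_compl.preimage (hf.iterate j))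
  obtain ⟨c, ⟨hcK, hcj⟩, hc⟩ := hF {x | x ∈ K ∧ ∀ j, f^[j] x ∉ U} (fun x hx => hK ▸ hx.1) h2
    ⟨x0, (hx0 0).1, fun j => (hx0 j).2 j le_rfl⟩
    (fun x hx => ⟨hKf x hx.1, fun j => by
      have := hx.2 (j + 1)
      rwa [Function.iterate_succ_apply] at this⟩)
  exact hcj 0 (hcU ⟨hc, hKJ hcK⟩)

/-- the limit set of an orbit in a compact space -/
theorem om_ne {f : OnePoint ℂ → OnePoint ℂ} (x : OnePoint ℂ) : (Om f x).Nonempty := by
  obtain ⟨y, hy⟩ := exists_clusterPt_of_compactSpace (map (fun n : ℕ => f^[n] x) atTop)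
  exact ⟨y, fun U hU => mapClusterPt_iff_frequently.1 hy U hU⟩

theorem om_closed {f : OnePoint ℂ → OnePoint ℂ} (x : OnePoint ℂ) : IsClosed (Om f x) := by
  have h1 : Om f x = {y | ClusterPt y (map (fun n : ℕ => f^[n] x) atTop)} := by
    ext y
    exact mapClusterPt_iff_frequently.symm
  rw [h1]
  exact isClosed_setOfPred_clusterPt

theorem om_sub {f : OnePoint ℂ → OnePoint ℂ} {K : Set (OnePoint ℂ)} (hKc : IsClosed K) (hKf : ∀ x ∈ K, f x ∈ K)
    {x : OnePoint ℂ} (hx : x ∈ K) : Om f x ⊆ K := by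
  intro y hy
  rw [← hKc.closure_eq, mem_closure_iff_nhds]
  intro U hU
  obtain ⟨n, hn⟩ := (hy U hU).exists
  exact ⟨_, hn, it_mem hKf hx n⟩

/-- all limit sets of points of the post-critical set contain a critical point of the Julia set -/
theorem om_crit {f : OnePoint ℂ → OnePoint ℂ} (hf : Continuous f) (hJi : ∀ x ∈ JS f, f x ∈ JS f) (hF : NFR f)
    {x : OnePoint ℂ} (hx : x ∈ KJ {c | IsCrit f c} (JS f) f) : ∃ c ∈ Om f x, IsCrit f c ∧ c ∈ JS f := by
  have h1 := om_sub isClosed_closure (kj_inv hf) hx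
  obtain ⟨c, hc, hc2⟩ := hF (Om f x) h1 (om_closed x) (om_ne x) (fun y hy => om_inv hf 1 hy)
  exact ⟨c, hc, hc2, kj_sub (js_closed f) hJi (h1 hc)⟩

/-- one critical point in the Julia set: the post-critical set is minimal -/
theorem minl {f : OnePoint ℂ → OnePoint ℂ} (hf : Continuous f) (hJi : ∀ x ∈ JS f, f x ∈ JS f) (hF : NFR f)
    (h1 : {c | IsCrit f c ∧ c ∈ JS f}.Subsingleton) {x : OnePoint ℂ} (hx : x ∈ KJ {c | IsCrit f c} (JS f) f) :
    Om f x = KJ {c | IsCrit f c} (JS f) f := by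
  refine Subset.antisymm (om_sub isClosed_closure (kj_inv hf) hx) ?_
  obtain ⟨c, hc, hc2, hcJ⟩ := om_crit hf hJi hF hx
  refine closure_minimal ?_ (om_closed x)
  rintro y ⟨c', hc', hcJ', n, -, rfl⟩
  obtain rfl : c' = c := h1 ⟨hc', hcJ'⟩ ⟨hc2, hcJ⟩
  exact om_inv hf n hc

end Pool.Agent.H44.TH
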