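import Pool.Agent.H56.UE.Defs
import Mathlib

/-!
# Expansion in a chart gives positive upper exponents on the sphere

`g` is the `N`-th iterate of `f` in the chart `e`, `L` is mapped into itself by `g` and the derivatives of the iterates of
`g` are large on `L`.
-/

set_option autoImplicit false

open Filter Topology Metric Set

namespace Pool.Agent.H44.TH

open Pool.Agent.H35.EX (chord)
open Pool.Agent.H56.UE (PUE)

variable {g : ℂ → ℂ} {U L : Set ℂ}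

theorem it_L (hL : ∀ z ∈ L, g z ∈ L) (n : ℕ) : ∀ z ∈ L, g^[n] z ∈ L := by
  induction n with
  | zero => exact fun z hz => hz
  | succ n ih =>
    intro z hz
    rw [Function.iterate_succ_apply']
    exact hL _ (ih z hz)

theorem it_diff (hU : IsOpen U) (hg : DifferentiableOn ℂ g U) (hLU : L ⊆ U) (hL : ∀ z ∈ L, g z ∈ L) (n : ℕ) :
    ∀ z ∈ L, DifferentiableAt ℂ g^[n] z := by
  induction n with
  | zero => exact fun z _ => differentiableAt_id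
  | succ n ih =>
    intro z hz
    rw [Function.iterate_succ']
    exact (hg.differentiableAt (hU.mem_nhds (hLU (it_L hL n z hz)))).comp z (ih z hz)

theorem exp_pow (hU : IsOpen U) (hg : DifferentiableOn ℂ g U) (hLU : L ⊆ U) (hL : ∀ z ∈ L, g z ∈ L) {m : ℕ} {M : ℝ}
    (hM0 : 0 ≤ M) (hM : ∀ z ∈ L, M ≤ ‖deriv g^[m] z‖) (j : ℕ) : ∀ z ∈ L, M ^ j ≤ ‖deriv g^[m * j] z‖ := by
  induction j with
  | zero =>
    intro z _
    rw [Nat.mul_zero, pow_zero, Function.iterate_zero, deriv_id, norm_one]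
  | succ j ih =>
    intro z hz
    have h1 : g^[m * (j + 1)] = g^[m] ∘ g^[m * j] := by
      rw [← Function.iterate_add, Nat.mul_succ, Nat.add_comm]
    rw [h1, deriv_comp z (it_diff hU hg hLU hL m _ (it_L hL _ z hz)) (it_diff hU hg hLU hL _ z hz), norm_mul, pow_succ,
      mul_comm (M ^ j)]
    exact mul_le_mul (hM _ (it_L hL _ z hz)) (ih z hz) (pow_nonneg hM0 _) (norm_nonneg _)

theorem it_eq (hU : IsOpen U) (hg : DifferentiableOn ℂ g U) (hLU : L ⊆ U) (hL : ∀ z ∈ L, g z ∈ L)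
    {f : OnePoint ℂ → OnePoint ℂ} {e : ℂ → OnePoint ℂ} {N : ℕ} (heq : ∀ w ∈ U, f^[N] (e w) = e (g w)) (n : ℕ) {z : ℂ}
    (hz : z ∈ L) : ∀ᶠ w in 𝓝 z, f^[N * n] (e w) = e (g^[n] w) := by
  induction n with
  | zero => exact Eventually.of_forall fun w => rfl
  | succ n ih =>
    have h1 : ∀ᶠ w in 𝓝 z, g^[n] w ∈ U :=
      (it_diff hU hg hLU hL n z hz).continuousAt.eventually_mem (hU.mem_nhds (hLU (it_L hL n z hz)))
    filter_upwards [ih, h1] with w h2 h3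
    rw [Nat.mul_succ, Nat.add_comm, Function.iterate_add_apply, h2, heq _ h3, Function.iterate_succ_apply']

theorem der_low {h : ℂ → ℂ} {z : ℂ} (hd : DifferentiableAt ℂ h z) (h0 : 0 < ‖deriv h z‖) :
    ∀ᶠ w in 𝓝 z, ‖deriv h z‖ / 2 * ‖w - z‖ ≤ ‖h w - h z‖ := by
  have h1 := hd.hasDerivAt.isLittleO.def (half_pos h0)
  filter_upwards [h1] with w h2
  have h3 : ‖(w - z) • deriv h z‖ = ‖deriv h z‖ * ‖w - z‖ := by
    rw [norm_smul, mul_comm]
  have h4 : ‖(w - z) • deriv h z‖ ≤ ‖h w - h z‖ + ‖h w - h z - (w - z) • deriv h z‖ := by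
    have := norm_sub_le (h w - h z) (h w - h z - (w - z) • deriv h z)
    rwa [sub_sub_cancel] at this
  rw [h3] at h4
  linarith

/-- the upper exponent is positive -/
theorem pue_ch (hU : IsOpen U) (hg : DifferentiableOn ℂ g U) (hLU : L ⊆ U) (hL : ∀ z ∈ L, g z ∈ L)
    {f : OnePoint ℂ → OnePoint ℂ} {e : ℂ → OnePoint ℂ} {N : ℕ} (hN : 1 ≤ N) (heq : ∀ w ∈ U, f^[N] (e w) = e (g w))
    (hop : ∀ z ∈ L, map e (𝓝 z) = 𝓝 (e z)) {K : ℝ} (hK : 1 ≤ K)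
    (hbil : ∀ z ∈ L, ∀ᶠ w in 𝓝 z, chord (e z) (e w) ≤ K * ‖w - z‖ ∧ ‖w - z‖ ≤ K * chord (e z) (e w))
    (hexp : ∀ M : ℝ, ∃ m₀ : ℕ, ∀ m ≥ m₀, ∀ z ∈ L, M ≤ ‖deriv g^[m] z‖) {z : ℂ} (hz : z ∈ L) : PUE f (e z) := by
  obtain ⟨m₀, hm₀⟩ := hexp (8 * K ^ 2)
  obtain ⟨m, hm⟩ : ∃ m, m = m₀ + 1 := ⟨_, rfl⟩
  have hK0 : 0 < K := by linarith
  have hK2 : 1 ≤ K ^ 2 := one_le_pow₀ hK
  have hder := exp_pow hU hg hLU hL (m := m) (M := 8 * K ^ 2) (by positivity) (hm₀ m (by omega))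
  have hNm : N * m ≠ 0 := Nat.mul_ne_zero (by omega) (by omega)
  refine ⟨(2 : ℝ) ^ (((N * m : ℕ) : ℝ)⁻¹), Real.one_lt_rpow (by norm_num) (by positivity), ?_⟩
  rw [Filter.frequently_atTop]
  intro a
  refine ⟨N * m * (a + 1), (Nat.le_succ a).trans (Nat.le_mul_of_pos_left _ (Nat.pos_of_ne_zero hNm)), ?_⟩
  obtain ⟨n, hn⟩ : ∃ n, n = m * (a + 1) := ⟨_, rfl⟩
  have hNn : N * m * (a + 1) = N * n := by rw [hn, Nat.mul_assoc]
  have hD := hder (a + 1) z hz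
  rw [← hn] at hD
  have hlow : (2 : ℝ) ^ (a + 1) * (2 * K ^ 2) ≤ ‖deriv g^[n] z‖ := by
    refine le_trans ?_ hD
    have h1 : (2 : ℝ) ^ a ≤ (8 * K ^ 2) ^ a := pow_le_pow_left₀ (by norm_num) (by linarith) a
    rw [pow_succ, pow_succ]
    calc (2 : ℝ) ^ a * 2 * (2 * K ^ 2) = 2 ^ a * (4 * K ^ 2) := by ring
      _ ≤ (8 * K ^ 2) ^ a * (8 * K ^ 2) := mul_le_mul h1 (by linarith) (by positivity) (by positivity)
  have hD0 : 0 < ‖deriv g^[n] z‖ := lt_of_lt_of_le (by positivity) hlow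
  have hdz := it_diff hU hg hLU hL n z hz
  have key : ∀ᶠ w in 𝓝 z, ((2 : ℝ) ^ (((N * m : ℕ) : ℝ)⁻¹)) ^ (N * m * (a + 1)) * chord (e z) (e w) ≤
      chord (f^[N * m * (a + 1)] (e z)) (f^[N * m * (a + 1)] (e w)) := by
    have e1 := it_eq hU hg hLU hL heq n hz
    filter_upwards [e1, der_low hdz hD0, hbil z hz, hdz.continuousAt.eventually (hbil _ (it_L hL n z hz))]
      with w h1 h2 h3 h4
    rw [hNn, h1, e1.self_of_nhds, ← hNn, pow_mul, Real.rpow_inv_natCast_pow (by norm_num) hNm]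
    have h5 := h4.2
    have h6 := h3.1
    have h7 : 0 ≤ ‖w - z‖ := norm_nonneg _
    have h8 : (2 : ℝ) ^ (a + 1) * chord (e z) (e w) ≤ 2 ^ (a + 1) * (K * ‖w - z‖) :=
      mul_le_mul_of_nonneg_left h6 (by positivity)
    have h9 : (2 : ℝ) ^ (a + 1) * (2 * K ^ 2) * ‖w - z‖ ≤ ‖deriv g^[n] z‖ * ‖w - z‖ :=
      mul_le_mul_of_nonneg_right hlow h7
    have h10 : (2 : ℝ) ^ (a + 1) * (K * ‖w - z‖) * K ≤ chord (e (g^[n] z)) (e (g^[n] w)) * K := by nlinarith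
    exact h8.trans (le_of_mul_le_mul_right h10 hK0)
  have h1 := hop z hz
  rw [← h1, eventually_map]
  exact key

end Pool.Agent.H44.TH
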