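import Pool.Agent.H31.UDC.Cdx
import Pool.Agent.H27.BR.PSG
import Pool.Agent.H56.TH.ME
import Pool.Agent.H56.TH.MR
import Pool.Agent.H56.TH.S2
import Pool.Agent.H44.TH.BP
import Pool.Agent.H44.TH.EB

/-!
# THEOREM H on the sphere, Julia set not the sphere

`bil_ch`: chart maps are locally bi-Lipschitz. `comp_pt`: one point components in a chart. `exh_cd`: `EXH` from a chart `CD`
(H27/BR): the planar setting (`ps_ga`, `ps_he`), `hy_ps`, `expand` (H56/TH), `pue_ch` (H44/TH/EB).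
-/

set_option autoImplicit false

open Filter Topology Polynomial Metric Set MeasureTheory

namespace Pool.Agent.H44.TH

open Pool.Agent.H44.Fatou (rat rat_continuous rat_coe rat_coe_of_ne pt crit_coe)
open Pool.Agent.H32.BT Pool.Agent.H79.Eul Pool.Agent.H79.Par
open Pool.Agent.H35.EX Pool.Agent.H56.HR Pool.Agent.H44.RC Pool.Agent.H47.RJ
open Pool.Agent.H47.NN Pool.Agent.H44.ND Pool.Agent.H79.ES Pool.Agent.H47.NM Pool.Agent.H57.CF
open Pool.Agent.H64.NC Pool.Agent.H61.TT Pool.Agent.H57.CP Pool.Agent.H3.NC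
open Pool.Agent.H18.UP (NJ PJ Cr Geo CU ps_conj ps_pj)
open Pool.Agent.H27.BR
open Pool.Agent.H56.UE (PUE)
open Pool.Agent.H64.JS (KJ)
open Pool.Agent.H56.TH (HY hy_ps ps_he expand)

variable {d : ℕ}

/-- the chart map is locally bi-Lipschitz -/
theorem bil_ch {φ : OnePoint ℂ ≃ₜ OnePoint ℂ} {K : ℝ} (hK : 1 ≤ K)
    (bil : ∀ x y, chord (φ x) (φ y) ≤ K * chord x y ∧ chord x y ≤ K * chord (φ x) (φ y)) {R : ℝ} {z : ℂ}
    (hz : ‖z‖ ≤ R) : ∀ᶠ w : ℂ in 𝓝 z,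
      chord (φ.symm (z : OnePoint ℂ)) (φ.symm (w : OnePoint ℂ)) ≤ K * (1 + (R + 1) ^ 2) * ‖w - z‖ ∧
        ‖w - z‖ ≤ K * (1 + (R + 1) ^ 2) * chord (φ.symm (z : OnePoint ℂ)) (φ.symm (w : OnePoint ℂ)) := by
  filter_upwards [ball_mem_nhds z one_pos] with w hw
  have hw1 : ‖w‖ ≤ R + 1 := by
    rw [mem_ball, dist_eq_norm] at hw
    have := norm_sub_norm_le w z
    linarith
  obtain ⟨h1, h2⟩ := bil (φ.symm (z : OnePoint ℂ)) (φ.symm (w : OnePoint ℂ))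
  rw [φ.apply_symm_apply, φ.apply_symm_apply] at h1 h2
  have h3 : chord (z : OnePoint ℂ) (w : OnePoint ℂ) ≤ ‖z - w‖ := Pool.Agent.H57.CF.upf_le z w
  have h4 := chord_cmp (hz.trans (by linarith : R ≤ R + 1)) hw1
  have hR : 1 ≤ 1 + (R + 1) ^ 2 := by nlinarith [sq_nonneg (R + 1)]
  have hKR : K ≤ K * (1 + (R + 1) ^ 2) := le_mul_of_one_le_right (by linarith) hR
  rw [norm_sub_rev] at h3 h4
  constructor
  · calc chord (φ.symm (z : OnePoint ℂ)) (φ.symm (w : OnePoint ℂ)) ≤ K * chord (z : OnePoint ℂ) (w : OnePoint ℂ) := h2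
      _ ≤ K * ‖w - z‖ := mul_le_mul_of_nonneg_left h3 (by linarith)
      _ ≤ K * (1 + (R + 1) ^ 2) * ‖w - z‖ := mul_le_mul_of_nonneg_right hKR (norm_nonneg _)
  · calc ‖w - z‖ ≤ (1 + (R + 1) ^ 2) * chord (z : OnePoint ℂ) (w : OnePoint ℂ) := h4
      _ ≤ (1 + (R + 1) ^ 2) * (K * chord (φ.symm (z : OnePoint ℂ)) (φ.symm (w : OnePoint ℂ))) :=
        mul_le_mul_of_nonneg_left h1 (by linarith)
      _ = K * (1 + (R + 1) ^ 2) * chord (φ.symm (z : OnePoint ℂ)) (φ.symm (w : OnePoint ℂ)) := by ring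

/-- components in a chart -/
theorem comp_pt {X Y : Type*} [TopologicalSpace X] [TopologicalSpace Y] {e : X → Y} (he : Continuous e)
    (hi : Function.Injective e) {P : Set X} {Q : Set Y}
    (hPQ : ∀ z ∈ P, e z ∈ Q) {z : X} (hz : z ∈ P) (hc : connectedComponentIn Q (e z) = {e z}) :
    connectedComponentIn P z = {z} := by
  have h1 : e '' connectedComponentIn P z ⊆ connectedComponentIn Q (e z) :=
    (isPreconnected_connectedComponentIn.image e he.continuousOn).subset_connectedComponentIn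
      ⟨z, mem_connectedComponentIn hz, rfl⟩ (by
        rintro _ ⟨y, hy, rfl⟩
        exact hPQ y (connectedComponentIn_subset _ _ hy))
  rw [hc] at h1
  refine Subset.antisymm (fun y hy => ?_) (singleton_subset_iff.2 (mem_connectedComponentIn hz))
  exact hi (h1 ⟨y, hy, rfl⟩)

theorem ch_nhds (φ : OnePoint ℂ ≃ₜ OnePoint ℂ) (z : ℂ) :
    map (fun w : ℂ => φ.symm (w : OnePoint ℂ)) (𝓝 z) = 𝓝 (φ.symm (z : OnePoint ℂ)) := by
  have h1 := (φ.symm.isOpenEmbedding.comp OnePoint.isOpenEmbedding_coe).map_nhds_eq z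
  exact h1

/-- Julia set not the sphere -/
theorem exh_cd {v u : E d} {φ : OnePoint ℂ ≃ₜ OnePoint ℂ} {K : ℝ} {T : Set (OnePoint ℂ)} {D : ℕ}
    (h : CD v u φ K T D) : EXH (Rf v) := by
  intro L hL hLc hLn hLf hcr hcomp
  obtain ⟨x0, hx0⟩ := hLn
  obtain ⟨-, c, hc, hcJ, -⟩ := closure_nonempty_iff.1 (⟨x0, hL hx0⟩ : (KJ {c | IsCrit (Rf v) c} (JS (Rf v)) (Rf v)).Nonempty)
  have hJ : φ c ∈ JS (Rf u) := (js_conj φ (fun y => (h.conj y).symm) c).2 hcJ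
  have hi : φ c ≠ OnePoint.infty := by
    intro h1
    rw [h1] at hJ
    exact hJ h.ga.fi
  obtain ⟨c1, hc1⟩ := OnePoint.ne_infty_iff_exists.1 hi
  have hcr1 : IsCrit (Rf u) (c1 : OnePoint ℂ) := by
    rw [hc1]
    exact (isCrit_conj φ h.conj c).2 hc
  rw [← hc1] at hJ
  obtain ⟨δ0, hG⟩ := geo_cd h hcr1 hJ
  have hb1 : (pol u.2).eval c1 ≠ 0 := h.ga.bne hJ
  have hCr1 : Cr (pol u.1) (pol u.2) c1 := ⟨hb1, (Pool.Agent.H18.UP.crit_iff hG hb1).1 hcr1⟩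
  obtain ⟨δ, η, ρ, hPS⟩ := ps_ga h.ga hG hJ hCr1
  obtain ⟨δ', hPS', hesc⟩ := ps_he h.ga hPS
  have hCU := cu_cd h hG
  -- the chart map
  obtain ⟨e, he⟩ : ∃ e : ℂ → OnePoint ℂ, e = fun w : ℂ => φ.symm (w : OnePoint ℂ) := ⟨_, rfl⟩
  have hea : ∀ w : ℂ, e w = φ.symm (w : OnePoint ℂ) := fun w => by rw [he]
  have hφe : ∀ w : ℂ, φ (e w) = (w : OnePoint ℂ) := fun w => by rw [hea, φ.apply_symm_apply]
  have hec : Continuous e := he ▸ φ.symm.continuous.comp OnePoint.continuous_coe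
  have hei : Function.Injective e := fun a b hab => by
    rw [hea, hea] at hab
    exact OnePoint.coe_injective (φ.symm.injective hab)
  have heq : ∀ w ∈ {z : ℂ | (pol u.2).eval z ≠ 0}, (Rf v)^[1] (e w) = e (gg (pol u.1) (pol u.2) w) := by
    intro w hw
    rw [Function.iterate_one]
    have h1 := h.conj (e w)
    rw [hφe] at h1
    have h2 : Rf u (w : OnePoint ℂ) = ((gg (pol u.1) (pol u.2) w : ℂ) : OnePoint ℂ) := rat_coe_of_ne hw
    rw [h2] at h1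
    rw [hea (gg (pol u.1) (pol u.2) w), h1, φ.symm_apply_apply]
  have hLJ : ∀ z : ℂ, e z ∈ L → z ∈ PJ (pol u.1) (pol u.2) (JC u) := by
    intro z hz
    have h1 : φ (e z) ∈ Pool.Agent.H18.UP.PS (Rf u) := (ps_conj hCU (e z)).2 (hL hz)
    rw [hφe] at h1
    exact (ps_pj hCU z).1 h1
  have hPQ : ∀ z ∈ PJ (pol u.1) (pol u.2) (JC u), e z ∈ KJ {c | IsCrit (Rf v) c} (JS (Rf v)) (Rf v) := by
    intro z hz
    have h1 := (ps_pj hCU z).2 hz
    rw [← hφe] at h1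
    exact (ps_conj hCU (e z)).1 h1
  have hPJ := pj_sub hG
  obtain ⟨L', hL'⟩ : ∃ L' : Set ℂ, L' = e ⁻¹' L := ⟨_, rfl⟩
  have hL'm : ∀ z, z ∈ L' ↔ e z ∈ L := fun z => by rw [hL']; rfl
  have hL'P : L' ⊆ PJ (pol u.1) (pol u.2) (JC u) := fun z hz => hLJ z ((hL'm z).1 hz)
  have hL'c : IsCompact L' := by
    refine (jc_comp h.ga).of_isClosed_subset ?_ (hL'P.trans hPJ)
    rw [hL']
    exact hLc.preimage hec
  have hL'U : L' ⊆ {z : ℂ | (pol u.2).eval z ≠ 0} := fun z hz => h.ga.bne (hPJ (hL'P hz))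
  have hL'f : ∀ z ∈ L', gg (pol u.1) (pol u.2) z ∈ L' := by
    intro z hz
    rw [hL'm]
    have h1 := heq z (hL'U hz)
    rw [Function.iterate_one] at h1
    rw [← h1]
    exact hLf _ ((hL'm z).1 hz)
  have hL'n : L'.Nonempty := by
    have h1 : φ x0 ∈ JS (Rf u) := by
      refine (js_conj φ (fun y => (h.conj y).symm) x0).2 ?_
      exact Pool.Agent.H64.JS.kj_sub (js_closed (Rf v)) (fun x hx => by
        have h3 : φ x ∈ JS (Rf u) := (js_conj φ (fun y => (h.conj y).symm) x).2 hx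
        have h4 := h.ga.js 1 h3
        rw [Function.iterate_one, h.conj] at h4
        exact (js_conj φ (fun y => (h.conj y).symm) _).1 h4) (hL hx0)
    have h2 : φ x0 ≠ OnePoint.infty := by
      intro h3
      rw [h3] at h1
      exact h1 h.ga.fi
    obtain ⟨z, hz⟩ := OnePoint.ne_infty_iff_exists.1 h2
    refine ⟨z, (hL'm z).2 ?_⟩
    rw [hea, hz, φ.symm_apply_apply]
    exact hx0
  obtain ⟨δ₀, δ₁, hY⟩ := hy_ps hPS' hesc hL'c hL'n hL'P hL'f
    (fun z hz => comp_pt hec hei hPQ (hL'P hz) (hcomp _ ((hL'm z).1 hz))) (fun z hz hzc => by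
      have h1 : IsCrit (Rf u) (z : OnePoint ℂ) := (Pool.Agent.H18.UP.crit_iff hG hzc.2.1).2 hzc.2.2
      rw [← hφe] at h1
      exact hcr _ ((hL'm z).1 hz) ((isCrit_conj φ h.conj _).1 h1))
  obtain ⟨z0, hz0⟩ := hL'n
  obtain ⟨R, hR⟩ := (jc_comp h.ga).isBounded.exists_norm_le
  have hK1 := hCU.K1
  refine ⟨e z0, (hL'm z0).1 hz0, ?_⟩
  refine pue_ch hPS.Uo hPS.fd hL'U hL'f le_rfl heq (fun z _ => ?_) (K := K * (1 + (R + 1) ^ 2)) ?_
    (fun z hz => ?_) (fun M => expand hY M) hz0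
  · rw [he]
    exact ch_nhds φ z
  · have : 1 ≤ 1 + (R + 1) ^ 2 := by nlinarith [sq_nonneg (R + 1)]
    nlinarith
  · rw [he]
    exact bil_ch hK1 h.bil (hR z (hPJ (hL'P hz)))

end Pool.Agent.H44.TH
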