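import Pool.Agent.H78.UX.FO
import Pool.Agent.H78.UX.FA
import Pool.Agent.H56.TH.S2
import Pool.Agent.H56.TH.MS
import Pool.Agent.H44.TH.BN
import Pool.Agent.H64.NC.PER

/-!
# THEOREM H on the sphere, Julia set = sphere, and all families

`exh_conj`: `EXH` and bi-Lipschitz conjugacies. `exh_one`: the chart with three fixed points: an iterate in the chart `em q`
(`q` periodic, outside the post-critical set), the setting `SS` (H66/UX), `hy_ss`, `expand` (H56/TH), `pue_ch`. `exh_sph`: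
Julia set = sphere. `th_all`: all families, no hypothesis on the Julia set.
-/

set_option autoImplicit false

open Filter Topology Polynomial Metric Set MeasureTheory

namespace Pool.Agent.H44.TH

open Pool.Agent.H44.Fatou (rat rat_continuous rat_coe rat_coe_of_ne pt crit_coe)
open Pool.Agent.H56.HR (FS EqAt)
open Pool.Agent.H32.BT Pool.Agent.H79.Eul Pool.Agent.H79.Par
open Pool.Agent.H35.EX Pool.Agent.H44.RR Pool.Agent.H44.RC Pool.Agent.H47.RJ
open Pool.Agent.H47.NM Pool.Agent.H47.NN Pool.Agent.H44.ND Pool.Agent.H79.ES Pool.Agent.H44.RG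
open Pool.Agent.H44.CP Pool.Agent.H47.PS Pool.Agent.H64.NC Pool.Agent.H57.CF
open Pool.Agent.H61.TT (gg dg ww RatD)
open Pool.Agent.H64.JS (KJ)
open Pool.Agent.H66.IL (em)
open Pool.Agent.H66.UX (PCs Pq rz_ex r1 UP CrS pw_crit)
open Pool.Agent.H78.UX (em_hom kj_img)
open Pool.Agent.H56.UE (PUE)
open Pool.Agent.H56.TH (HY hy_ss expand)

variable {d : ℕ}

/-- `EXH` and conjugacies -/
theorem exh_conj {φ : OnePoint ℂ ≃ₜ OnePoint ℂ} {K : ℝ} {f g : OnePoint ℂ → OnePoint ℂ}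
    (bil : ∀ x y, chord (φ x) (φ y) ≤ K * chord x y ∧ chord x y ≤ K * chord (φ x) (φ y))
    (conj : ∀ x, g (φ x) = φ (f x)) (h : EXH g) : EXH f := by
  intro L hL hLc hLn hLf hcr hcomp
  have h1 : ∀ y ∈ φ '' L, φ.symm y ∈ L := by
    rintro _ ⟨x, hx, rfl⟩
    rw [φ.symm_apply_apply]
    exact hx
  obtain ⟨y, ⟨x, hx, rfl⟩, hy⟩ := h (φ '' L) (by
      rintro _ ⟨x, hx, rfl⟩
      exact (kj_img conj x).2 (hL hx)) (φ.isClosedMap _ hLc) (hLn.image φ) (by
      rintro _ ⟨x, hx, rfl⟩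
      rw [conj]
      exact ⟨f x, hLf x hx, rfl⟩) (by
      rintro _ ⟨x, hx, rfl⟩ hc
      exact hcr x hx ((isCrit_conj φ conj x).1 hc)) (by
      rintro _ ⟨x, hx, rfl⟩
      refine comp_pt (e := φ.symm) φ.symm.continuous φ.symm.injective (Q := KJ {c | IsCrit f c} (JS f) f) ?_
        ((kj_img conj x).2 (hL hx)) ?_
      · intro y hy
        refine (kj_img conj _).1 ?_
        rw [φ.apply_symm_apply]
        exact hy
      · rw [φ.symm_apply_apply]
        exact hcomp x hx)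
  exact ⟨x, hx, pue_conj bil conj hy⟩

/-- three fixed points `0`, `1`, `∞` -/
theorem exh_one {v : E d} (hd : 2 ≤ d) (hcop : IsCoprime (pol v.1) (pol v.2))
    (hdeg : max (pol v.1).natDegree (pol v.2).natDegree = d) (hup : ¬ Up v) (hJ : JS (Rf v) = univ)
    (h0 : Rf v ((0 : ℂ) : OnePoint ℂ) = ((0 : ℂ) : OnePoint ℂ))
    (h1 : Rf v ((1 : ℂ) : OnePoint ℂ) = ((1 : ℂ) : OnePoint ℂ)) (hi : Rf v OnePoint.infty = OnePoint.infty) :
    EXH (Rf v) := by
  intro L hL hLc hLn hLf hcr hcomp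
  obtain ⟨x0, hx0⟩ := hLn
  have hcont : Continuous (Rf v) := rat_continuous hcop
  have hcl : IsClosed (PCs v) := isClosed_closure
  have hLP : L ⊆ PCs v := hL
  have hne : ((PCs v)ᶜ).Nonempty := by
    rw [nonempty_compl]
    intro h2
    have h3 := hcomp x0 hx0
    have h4 : KJ {c | IsCrit (Rf v) c} (JS (Rf v)) (Rf v) = univ := h2
    rw [h4, connectedComponentIn_univ, PreconnectedSpace.connectedComponent_eq_univ] at h3
    have h5 : ((0 : ℂ) : OnePoint ℂ) ∈ ({x0} : Set (OnePoint ℂ)) := h3 ▸ mem_univ _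
    have h6 : (OnePoint.infty : OnePoint ℂ) ∈ ({x0} : Set (OnePoint ℂ)) := h3 ▸ mem_univ _
    exact OnePoint.coe_ne_infty (0 : ℂ) (h5.trans h6.symm)
  -- a periodic point outside the postcritical set
  obtain ⟨q, N, hN, hq, hqP⟩ : ∃ (q : ℂ) (N : ℕ), 1 ≤ N ∧ (Rf v)^[N] (q : OnePoint ℂ) = (q : OnePoint ℂ) ∧
      (q : OnePoint ℂ) ∉ PCs v := by
    obtain ⟨z, hz⟩ : ∃ z : ℂ, (z : OnePoint ℂ) ∈ (PCs v)ᶜ := by
      obtain ⟨y, hy, z, rfl⟩ := OnePoint.denseRange_coe.inter_open_nonempty _ hcl.isOpen_compl hne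
      exact ⟨z, hy⟩
    have hV : (PCs v)ᶜ ∩ {OnePoint.infty}ᶜ ∈ 𝓝 (z : OnePoint ℂ) :=
      (hcl.isOpen_compl.inter isClosed_singleton.isOpen_compl).mem_nhds ⟨hz, OnePoint.coe_ne_infty z⟩
    obtain ⟨p, ⟨hp1, hp2⟩, N, hN, hp⟩ := Pool.Agent.H44.NR.per_dense hd hcop hdeg (hJ ▸ mem_univ (z : OnePoint ℂ)) hV
    obtain ⟨q, hq⟩ := OnePoint.ne_infty_iff_exists.1 hp2
    refine ⟨q, N, hN, ?_, ?_⟩
    · rw [hq]
      exact hp
    · rw [hq]
      exact hp1
  obtain ⟨A, B, hRZ, he⟩ := rz_ex hd hcop hdeg hup hJ h0 h1 hi hN hq hqP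
  obtain ⟨φ, K, hK, bil, hφ⟩ := em_hom hd q
  have hK1 : 1 ≤ K := Pool.Agent.H18.UP.k_one bil
  obtain ⟨R, hR⟩ := hRZ.Pc.isBounded.exists_norm_le
  obtain ⟨η, ρ, hS⟩ := r1 hRZ one_pos
  -- the chart map
  obtain ⟨e, hee⟩ : ∃ e : ℂ → OnePoint ℂ, e = fun w : ℂ => φ.symm (w : OnePoint ℂ) := ⟨_, rfl⟩
  have hea : ∀ w : ℂ, e w = em q w := fun w => by rw [hee]; exact hφ w
  have hφe : ∀ w : ℂ, φ (e w) = (w : OnePoint ℂ) := fun w => by rw [hee]; exact φ.apply_symm_apply _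
  have hec : Continuous e := hee ▸ φ.symm.continuous.comp OnePoint.continuous_coe
  have hei : Function.Injective e := fun a b hab => by
    have h3 := congrArg φ hab
    rw [hφe, hφe] at h3
    exact OnePoint.coe_injective h3
  have hnh : ∀ z : ℂ, map e (𝓝 z) = 𝓝 (e z) := fun z => by
    rw [hee]
    exact ch_nhds φ z
  have hemq : ∀ w : ℂ, em q w ≠ (q : OnePoint ℂ) := by
    intro w h3
    unfold Pool.Agent.H66.IL.em at h3
    by_cases hw : w = 0
    · rw [if_pos hw] at h3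
      exact OnePoint.infty_ne_coe _ h3
    · rw [if_neg hw] at h3
      have h4 := OnePoint.coe_injective h3
      rw [add_eq_left, one_div, inv_eq_zero] at h4
      exact hw h4
  have hφq : φ (q : OnePoint ℂ) = OnePoint.infty := by
    by_contra h3
    obtain ⟨w, hw⟩ := OnePoint.ne_infty_iff_exists.1 h3
    refine hemq w ?_
    rw [← hea, hee]
    show φ.symm (w : OnePoint ℂ) = (q : OnePoint ℂ)
    rw [hw, φ.symm_apply_apply]
  have heq : ∀ w ∈ UP B, (Rf v)^[N] (e w) = e (gg A B w) := by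
    intro w hw
    rw [hea, hea]
    exact he w hw
  obtain ⟨L', hL'⟩ : ∃ L' : Set ℂ, L' = e ⁻¹' L := ⟨_, rfl⟩
  have hL'm : ∀ z, z ∈ L' ↔ e z ∈ L := fun z => by rw [hL']; rfl
  have hL'P : L' ⊆ Pq v q := by
    intro z hz
    show em q z ∈ PCs v
    rw [← hea]
    exact hLP ((hL'm z).1 hz)
  have hL'c : IsCompact L' := by
    refine hRZ.Pc.of_isClosed_subset ?_ hL'P
    rw [hL']
    exact hLc.preimage hec
  have hL'U : L' ⊆ UP B := fun z hz => hRZ.Pb z (hL'P hz)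
  have hLit : ∀ n : ℕ, ∀ x ∈ L, (Rf v)^[n] x ∈ L := fun n x hx => Pool.Agent.H64.JS.it_mem hLf hx n
  have hL'f : ∀ z ∈ L', gg A B z ∈ L' := by
    intro z hz
    rw [hL'm, ← heq z (hL'U hz)]
    exact hLit N _ ((hL'm z).1 hz)
  have hL'n : L'.Nonempty := by
    have h2 : φ x0 ≠ OnePoint.infty := by
      intro h3
      rw [← hφq] at h3
      exact hqP (φ.injective h3 ▸ hLP hx0)
    obtain ⟨z, hz⟩ := OnePoint.ne_infty_iff_exists.1 h2
    refine ⟨z, (hL'm z).2 ?_⟩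
    have h3 : e z = x0 := by
      apply φ.injective
      rw [hφe, hz]
    rw [h3]
    exact hx0
  have hcrit : ∀ z ∈ L', z ∉ CrS A B := by
    intro z hz hzc
    have hd1 : 1 ≤ max A.natDegree B.natDegree := by
      rw [hRZ.rt.deg]
      have := hRZ.rt.hd
      omega
    refine crit_of_wr hRZ.rt.cop hd1 hzc.2 ?_
    have h3 : ¬ IsCrit (Rf v)^[N] (e z) := by
      intro h4
      obtain ⟨j, -, hj⟩ := pw_crit hcont h4
      exact hcr _ (hLit j _ ((hL'm z).1 hz)) hj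
    unfold IsCrit at h3
    rw [not_not] at h3
    obtain ⟨V, hV, hVi⟩ := h3
    have hV2 : e ⁻¹' V ∩ UP B ∈ 𝓝 z := inter_mem (hec.continuousAt hV) (hS.Uo.mem_nhds (hL'U hz))
    refine ⟨(fun w : ℂ => (w : OnePoint ℂ)) '' (e ⁻¹' V ∩ UP B), ?_, ?_⟩
    · exact OnePoint.isOpenEmbedding_coe.image_mem_nhds.2 hV2
    · rintro _ ⟨a, ⟨ha, haB⟩, rfl⟩ _ ⟨b, ⟨hb, hbB⟩, rfl⟩ hab
      have ha1 : rat A B (a : OnePoint ℂ) = ((gg A B a : ℂ) : OnePoint ℂ) := rat_coe_of_ne haB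
      have hb1 : rat A B (b : OnePoint ℂ) = ((gg A B b : ℂ) : OnePoint ℂ) := rat_coe_of_ne hbB
      have hab' : rat A B (a : OnePoint ℂ) = rat A B (b : OnePoint ℂ) := hab
      rw [ha1, hb1] at hab'
      have h5 := OnePoint.coe_injective hab'
      have h6 : (Rf v)^[N] (e a) = (Rf v)^[N] (e b) := by rw [heq a haB, heq b hbB, h5]
      show (a : OnePoint ℂ) = (b : OnePoint ℂ)
      rw [hei (hVi ha hb h6)]
  obtain ⟨δ₀, δ₁, hY⟩ := hy_ss hS hL'c hL'n hL'P hL'f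
    (fun z hz => comp_pt hec hei (Q := KJ {c | IsCrit (Rf v) c} (JS (Rf v)) (Rf v)) (fun y hy => by
      rw [hea]
      exact hy) (hL'P hz) (hcomp _ ((hL'm z).1 hz))) hcrit
  obtain ⟨z0, hz0⟩ := hL'n
  refine ⟨e z0, (hL'm z0).1 hz0, ?_⟩
  refine pue_ch hS.Uo hS.fd hL'U hL'f hN heq (fun z _ => hnh z) (K := K * (1 + (R + 1) ^ 2)) ?_
    (fun z hz => ?_) (fun M => expand hY M) hz0
  · have : 1 ≤ 1 + (R + 1) ^ 2 := by nlinarith [sq_nonneg (R + 1)]
    nlinarith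
  · rw [hee]
    exact bil_ch hK1 bil (hR z (hL'P hz))

/-- Julia set = sphere -/
theorem exh_sph {v : E d} (hd : 2 ≤ d) (hcop : IsCoprime (pol v.1) (pol v.2))
    (hdeg : max (pol v.1).natDegree (pol v.2).natDegree = d) (hup : ¬ Up v) (hJ : JS (Rf v) = univ) : EXH (Rf v) := by
  obtain ⟨q1, q2, q3, n12, n13, n23, e1, e2, e3⟩ := three_fix hd hcop hdeg hup hJ
  obtain ⟨L, G, φ, K, hch, -, f0, f1, fi⟩ := ch_three (d := d) hd n12 n13 n23
  obtain ⟨hcop1, hdeg1, hφ⟩ := hch.conj v hcop hdeg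
  have hup1 : ¬ Up (L v) := fun h =>
    hup (up_chart hd hch.cG hch.invL hch.invR (fun v h3 h4 => (hch.conj v h3 h4).2.2) hcop hdeg h)
  have hJS1 : JS (Rf (L v)) = univ := by
    rw [eq_univ_iff_forall]
    intro y
    obtain ⟨x, rfl⟩ := φ.surjective y
    exact (js_conj φ (fun y => (hφ y).symm) x).2 (hJ ▸ mem_univ x)
  have h0 : Rf (L v) ((0 : ℂ) : OnePoint ℂ) = ((0 : ℂ) : OnePoint ℂ) := by rw [← f0, hφ, e1]
  have h1 : Rf (L v) ((1 : ℂ) : OnePoint ℂ) = ((1 : ℂ) : OnePoint ℂ) := by rw [← f1, hφ, e2]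
  have hi : Rf (L v) OnePoint.infty = OnePoint.infty := by rw [← fi, hφ, e3]
  exact exh_conj hch.bil hφ (exh_one hd hcop1 hdeg1 hup1 hJS1 h0 h1 hi)

/-- THEOREM H, all families -/
theorem th_all {m : ℕ} (hd : 2 ≤ d) (hm : m ≤ d) {x : Em d m} (hcop : IsCoprime (pol x.1) (pol x.2))
    (hdeg : max (pol x.1).natDegree (pol x.2).natDegree = d) (hup : ¬ UpF d m x) : EXH (Rf (ex d m x)) := by
  by_cases hJ : JS (Rf (ex d m x)) = univ
  · rcases Nat.lt_or_ge m 2 with h2 | h2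
    · have hup1 : ¬ Up (ex d m x) := by
        rcases Nat.lt_or_ge m 1 with h1 | h1
        · obtain rfl : m = 0 := by omega
          exact fun h => hup (up_zero h)
        · obtain rfl : m = 1 := by omega
          exact fun h => hup (Pool.Agent.H64.PF.up_one hd hcop hdeg h)
      exact exh_sph hd (ex_cop hcop) (ex_deg hdeg) hup1 hJ
    · exfalso
      obtain ⟨D, u, φ, K, T, h, -⟩ := Pool.Agent.H31.UDC.cdx_upF hd h2 hm hcop hdeg hup
      obtain ⟨y, hy⟩ := φ.surjective OnePoint.infty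
      have h3 : φ y ∈ JS (Rf u) := (js_conj φ (fun y => (h.conj y).symm) y).2 (hJ ▸ mem_univ y)
      rw [hy] at h3
      exact h3 h.ga.fi
  · have hF : (FS (Rf (ex d m x))).Nonempty := by
      by_contra h1
      refine hJ ?_
      show (FS (Rf (ex d m x)))ᶜ = univ
      rw [Set.not_nonempty_iff_eq_empty.1 h1, Set.compl_empty]
    obtain ⟨D, u, φ, K, T, h, -⟩ := Pool.Agent.H31.UDC.cdx hd hm hcop hdeg hup hF
    exact exh_cd h

/-- every nonempty closed subset of the post-critical set which is mapped into itself contains a critical point or meets a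
component of the post-critical set which is not a point -/
theorem nfc_all {m : ℕ} (hd : 2 ≤ d) (hm : m ≤ d) {x : Em d m} (hcop : IsCoprime (pol x.1) (pol x.2))
    (hdeg : max (pol x.1).natDegree (pol x.2).natDegree = d) (hup : ¬ UpF d m x) : NFC (Rf (ex d m x)) :=
  free hd hm hcop hdeg hup (th_all hd hm hcop hdeg hup)

end Pool.Agent.H44.TH
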